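import Pool.Agent.H22.KBX.FRB

/-!
# The rounded frame and the skew grid, with explicit dependence on the determinant
-/

set_option autoImplicit false

namespace Pool.KBX.FRU

open Finset Real
open Pool.Agent.H49.Ent Pool.Agent.H32.Dense Pool.STK Pool.KAF Pool.KAL Pool.KS3
open Pool.KBX.FRA Pool.KBX.FRB

theorem fra_u (n : ℕ) (C₀ : ℝ) (hC : 1 ≤ C₀) : ∃ a : ℝ, 1 ≤ a ∧
    ∀ (δ : ℝ) (b : ℕ), 0 < δ → a ≤ δ ^ n * 2 ^ b →
      ∃ Iv : (Fin n → Fin n → ℤ) → Fin n → Fin n → ℝ,
      ∀ V : Fin n → Fin n → ℝ, (∀ j i, |V j i| ≤ C₀) → δ ^ n ≤ |Matrix.det (Matrix.of V)| →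
        (∀ j i, |Iv (fr b V) j i| ≤ a / δ ^ n) ∧
        (∀ j j', ∑ i, Iv (fr b V) j i * ((fr b V j' i : ℝ) / 2 ^ b) = if j = j' then 1 else 0) ∧
        (∀ i i', ∑ j, ((fr b V j i : ℝ) / 2 ^ b) * Iv (fr b V) j i' =
          if i = i' then 1 else 0) := by
  -- compactness
  have hK : IsCompact (Metric.closedBall (0 : Fin n → Fin n → ℝ) (C₀ + 1)) :=
    isCompact_closedBall _ _
  have hcof : Continuous fun V : Fin n → Fin n → ℝ => (Matrix.of V : Matrix (Fin n) (Fin n) ℝ) :=
    continuous_id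
  have hsm : ContDiff ℝ 1 fun V : Fin n → Fin n → ℝ => Matrix.det (Matrix.of V) := by
    have e : (fun V : Fin n → Fin n → ℝ => Matrix.det (Matrix.of V)) =
        fun V => ∑ σ : Equiv.Perm (Fin n), ((Equiv.Perm.sign σ : ℤ) : ℝ) * ∏ i, V (σ i) i := by
      funext V
      rw [Matrix.det_apply']
      rfl
    rw [e]
    refine ContDiff.sum fun σ _ => ContDiff.mul contDiff_const ?_
    exact contDiff_prod fun i _ => contDiff_apply_apply ℝ ℝ (σ i) i
  obtain ⟨Lp, hLp⟩ := hsm.contDiffOn.exists_lipschitzOnWith (s := Metric.closedBall (0 : Fin n → Fin n → ℝ) (C₀ + 1))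
    one_ne_zero (convex_closedBall _ _) hK
  have hadj : Continuous fun V : Fin n → Fin n → ℝ =>
      ((Matrix.of V : Matrix (Fin n) (Fin n) ℝ).transpose.adjugate : Matrix (Fin n) (Fin n) ℝ) :=
    hcof.matrix_transpose.matrix_adjugate
  have hbd : ∃ A : ℝ, 0 ≤ A ∧ ∀ V ∈ Metric.closedBall (0 : Fin n → Fin n → ℝ) (C₀ + 1), ∀ j i,
      |((Matrix.of V : Matrix (Fin n) (Fin n) ℝ).transpose.adjugate) j i| ≤ A := by
    have h1 : ∀ j i : Fin n, ∃ A : ℝ, ∀ V ∈ Metric.closedBall (0 : Fin n → Fin n → ℝ) (C₀ + 1),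
        |((Matrix.of V : Matrix (Fin n) (Fin n) ℝ).transpose.adjugate) j i| ≤ A := by
      intro j i
      have hc : Continuous fun V : Fin n → Fin n → ℝ =>
          ((Matrix.of V : Matrix (Fin n) (Fin n) ℝ).transpose.adjugate) j i :=
        (continuous_apply i).comp ((continuous_apply j).comp hadj)
      obtain ⟨A, hA⟩ := hK.exists_bound_of_continuousOn hc.continuousOn
      exact ⟨A, fun V hV => by simpa [Real.norm_eq_abs] using hA V hV⟩
    choose A hA using h1
    refine ⟨∑ j, ∑ i, |A j i|, sum_nonneg fun j _ => sum_nonneg fun i _ => abs_nonneg _, ?_⟩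
    intro V hV j i
    calc |((Matrix.of V : Matrix (Fin n) (Fin n) ℝ).transpose.adjugate) j i| ≤ A j i := hA j i V hV
      _ ≤ |A j i| := le_abs_self _
      _ ≤ ∑ i, |A j i| := single_le_sum (f := fun i => |A j i|) (fun i _ => abs_nonneg _)
          (mem_univ i)
      _ ≤ ∑ j, ∑ i, |A j i| := single_le_sum (f := fun j => ∑ i, |A j i|)
          (fun j _ => sum_nonneg fun i _ => abs_nonneg _) (mem_univ j)
  obtain ⟨A, hA0, hA⟩ := hbd
  refine ⟨2 * A + 2 * Lp + 1, ?_, ?_⟩
  · have := Lp.coe_nonneg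
    linarith
  intro δ b hδ hb
  have hη : (0 : ℝ) < δ ^ n / 2 := by positivity
  have hLp0 := Lp.coe_nonneg
  refine ⟨fun E => iv (Matrix.of fun j i => (E j i : ℝ) / 2 ^ b), ?_⟩
  intro V hV hVd
  set M : Fin n → Fin n → ℝ := fun j i => (fr b V j i : ℝ) / 2 ^ b with hM
  have hb1 : (1 : ℝ) / 2 ^ b ≤ 1 := by
    rw [div_le_one (by positivity)]
    exact one_le_pow₀ (by norm_num)
  have hMV : ∀ j i, |M j i - V j i| ≤ 1 / 2 ^ b := fun j i => fr_near b V j i
  have hVK : V ∈ Metric.closedBall (0 : Fin n → Fin n → ℝ) (C₀ + 1) := by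
    rw [mem_closedBall_zero_iff, pi_norm_le_iff_of_nonneg (by linarith)]
    intro j
    rw [pi_norm_le_iff_of_nonneg (by linarith only [hC])]
    intro i
    rw [Real.norm_eq_abs]
    linarith only [hV, hV j i]
  have hMK : M ∈ Metric.closedBall (0 : Fin n → Fin n → ℝ) (C₀ + 1) := by
    rw [mem_closedBall_zero_iff, pi_norm_le_iff_of_nonneg (by linarith)]
    intro j
    rw [pi_norm_le_iff_of_nonneg (by linarith only [hC])]
    intro i
    rw [Real.norm_eq_abs]
    have h1 := hMV j i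
    have h2 := hV j i
    have h3 : |M j i| ≤ |M j i - V j i| + |V j i| := by
      calc |M j i| = |(M j i - V j i) + V j i| := by rw [sub_add_cancel]
        _ ≤ _ := abs_add_le _ _
    linarith only [hb1, h1, h2, h3]
  have hdist : dist M V ≤ 1 / 2 ^ b := by
    rw [dist_pi_le_iff (by positivity)]
    intro j
    rw [dist_pi_le_iff (by positivity)]
    intro i
    rw [Real.dist_eq]
    exact hMV j i
  have hdM : |Matrix.det (Matrix.of M) - Matrix.det (Matrix.of V)| ≤ δ ^ n / 2 := by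
    have h1 := hLp.dist_le_mul M hMK V hVK
    rw [Real.dist_eq] at h1
    refine h1.trans ((mul_le_mul_of_nonneg_left hdist hLp0).trans ?_)
    have h2b : (0 : ℝ) < 2 ^ b := by positivity
    rw [mul_one_div, div_le_iff₀ h2b]
    linarith only [hA0, hb]
  have hdM2 : δ ^ n / 2 ≤ |Matrix.det (Matrix.of M)| := by
    have h1 : |Matrix.det (Matrix.of V)| ≤
        |Matrix.det (Matrix.of M) - Matrix.det (Matrix.of V)| + |Matrix.det (Matrix.of M)| := by
      calc |Matrix.det (Matrix.of V)| =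
          |-(Matrix.det (Matrix.of M) - Matrix.det (Matrix.of V)) + Matrix.det (Matrix.of M)| := by
            congr 1; ring
        _ ≤ _ := by
            refine (abs_add_le _ _).trans ?_
            rw [abs_neg]
    linarith only [hVd, hdM, h1]
  have hu : IsUnit (Matrix.det ((Matrix.of M : Matrix (Fin n) (Fin n) ℝ).transpose)) := by
    rw [Matrix.det_transpose, isUnit_iff_ne_zero]
    intro h0
    rw [h0, abs_zero] at hdM2
    linarith only [hη, hdM2]
  refine ⟨?_, ?_, ?_⟩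
  · intro j i
    have h1 : iv (Matrix.of M) j i = (Matrix.det (Matrix.of M))⁻¹ *
        ((Matrix.of M : Matrix (Fin n) (Fin n) ℝ).transpose.adjugate) j i := by
      unfold iv
      rw [Matrix.inv_def, Matrix.smul_apply, Matrix.det_transpose, Ring.inverse_eq_inv', smul_eq_mul]
    change |iv (Matrix.of M) j i| ≤ _
    rw [h1, abs_mul, abs_inv]
    have h2 := hA M hMK j i
    have h3 : |Matrix.det (Matrix.of M)|⁻¹ ≤ (δ ^ n / 2)⁻¹ := inv_anti₀ hη hdM2
    calc |Matrix.det (Matrix.of M)|⁻¹ *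
          |((Matrix.of M : Matrix (Fin n) (Fin n) ℝ).transpose.adjugate) j i| ≤
          (δ ^ n / 2)⁻¹ * A := mul_le_mul h3 h2 (abs_nonneg _) (by positivity)
      _ = 2 * A / δ ^ n := by field_simp
      _ ≤ (2 * A + 2 * Lp + 1) / δ ^ n := by
        refine div_le_div_of_nonneg_right ?_ (by positivity)
        linarith only
  · intro j j'
    have h1 := Matrix.nonsing_inv_mul (Matrix.of M : Matrix (Fin n) (Fin n) ℝ).transpose hu
    have h2 : (iv (Matrix.of M) * (Matrix.of M : Matrix (Fin n) (Fin n) ℝ).transpose) j j' =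
        (1 : Matrix (Fin n) (Fin n) ℝ) j j' := by
      unfold iv
      rw [h1]
    rw [Matrix.mul_apply, Matrix.one_apply] at h2
    exact h2
  · intro i i'
    have h1 := Matrix.mul_nonsing_inv (Matrix.of M : Matrix (Fin n) (Fin n) ℝ).transpose hu
    have h2 : ((Matrix.of M : Matrix (Fin n) (Fin n) ℝ).transpose * iv (Matrix.of M)) i i' =
        (1 : Matrix (Fin n) (Fin n) ℝ) i i' := by
      unfold iv
      rw [h1]
    rw [Matrix.mul_apply, Matrix.one_apply] at h2
    exact h2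

theorem frb_u (n : ℕ) (C₀ : ℝ) (hC : 1 ≤ C₀) : ∃ a C : ℝ, 1 ≤ a ∧ 1 ≤ C ∧
    ∀ (δ : ℝ) (R b L : ℕ), 0 < δ → a / δ ^ n + 1 ≤ R → a ≤ δ ^ n * 2 ^ b → b ≤ L → ∃ Iv : (Fin n → Fin n → ℤ) → Fin n → Fin n → ℝ,
      (∀ E j, ∑ i, |Iv E j i| ≤ R) ∧
      ∀ (Ω Λ Ξ W : Type) [Fintype Ω] (p : Ω → ℝ) (lam : Ω → Λ) (x : Ω → Ξ) (T : Ξ → ℕ)
        (pos : Ξ → Option (Fin n) → ℕ) (A B : Λ → Option (Fin n) → ℝ) (i₀ : Fin n)
        (f : Fin n → W → Ω) (𝒲 : Set W) (E : W → Fin n → Fin n → ℤ),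
        Leaf n (2 ^ L) C₀ p lam x T pos A B → TC i₀ lam x T pos A B →
        (∀ w, E w = fr b fun j i => B (lam (f j w)) (some i)) →
        (∀ w ∈ 𝒲, ∀ j, x (f j w) = x (f i₀ w)) →
        (∀ w ∈ 𝒲, δ ^ n ≤
          |Matrix.det (Matrix.of fun j i => B (lam (f j w)) (some i))|) →
        ∃ s : W → Fin n → Fin (2 * R * 2 ^ b),
          (∀ w ∈ 𝒲, ∀ w' ∈ 𝒲, E w = E w' → s w = s w' → ∀ i,
            |(bc L b pos (x (f i₀ w)) i : ℝ) - (bc L b pos (x (f i₀ w')) i : ℝ)| ≤ C) ∧
          (∀ w ∈ 𝒲, ∀ ξ : Ξ, bc L b pos ξ = bc L b pos (x (f i₀ w)) → ∀ j,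
            |((s w j : ℕ) : ℝ) - 2 ^ b * (∑ i, Iv (E w) j i * ((pos ξ (some i) : ℝ) / 2 ^ L) +
              R)| ≤ C * R) ∧
          (∀ w ∈ 𝒲, |2 ^ b * ((T (x (f i₀ w)) : ℝ) / 2 ^ L) -
            (∑ j, ((s w j : ℕ) : ℝ) - n * R * 2 ^ b)| ≤ C) ∧
          (∀ j, ∀ w ∈ 𝒲, ∀ w' ∈ 𝒲, E w = E w' → (∀ i, i ≠ j → s w i = s w' i) →
            ∀ ω ω', lam ω = lam (f j w) → lam ω' = lam (f j w') →
            T (x ω) / 2 ^ (L - b) = T (x ω') / 2 ^ (L - b) → ∀ i,
            |(bc L b pos (x ω) i : ℝ) - (bc L b pos (x ω') i : ℝ)| ≤ C) := by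
  classical
  obtain ⟨a, ha, hfra⟩ := fra_u n C₀ hC
  have hn0 : (0 : ℝ) ≤ n := Nat.cast_nonneg n
  refine ⟨(n + 1) * a, (2 * n * (C₀ + 1) + 8 * C₀ + 8) + 2 + n, ?_, ?_, ?_⟩
  · nlinarith only [ha]
  · nlinarith only [hC]
  intro δ R b L hδ hR hb hbL
  have hδn : (0 : ℝ) < δ ^ n := by positivity
  obtain ⟨R₀, hR₀⟩ : ∃ R₀ : ℝ, R₀ = a / δ ^ n := ⟨_, rfl⟩
  have hR₀0 : 0 < R₀ := by rw [hR₀]; positivity
  have hRR : n * R₀ + 1 ≤ R := by
    have e : (n + 1) * a / δ ^ n = n * R₀ + R₀ := by rw [hR₀]; ring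
    rw [e] at hR
    linarith only [hR, hR₀0]
  have hRn0 : (1 : ℝ) ≤ R := by
    have : 0 ≤ n * R₀ := by positivity
    linarith only [hRR, this]
  obtain ⟨Iv₀, hIv₀⟩ := hfra δ b hδ (by nlinarith only [hb, ha])
  rw [← hR₀] at hIv₀
  set Iv : (Fin n → Fin n → ℤ) → Fin n → Fin n → ℝ := fun E j i =>
    if ∀ j i, |Iv₀ E j i| ≤ R₀ then Iv₀ E j i else 0 with hIvdef
  have hIvb : ∀ E j, ∑ i, |Iv E j i| ≤ n * R₀ := by
    intro E j
    have h1 : ∀ i, |Iv E j i| ≤ R₀ := by
      intro i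
      simp only [hIvdef]
      split_ifs with h
      · exact h j i
      · rw [abs_zero]; exact hR₀0.le
    calc ∑ i, |Iv E j i| ≤ ∑ _i : Fin n, (R₀ : ℝ) := sum_le_sum fun i _ => h1 i
      _ = n * R₀ := by rw [sum_const, card_univ, Fintype.card_fin, nsmul_eq_mul]
  have hIvb' : ∀ E j, ∑ i, |Iv E j i| ≤ (R : ℝ) - 1 := by
    intro E j
    have h1 := hIvb E j
    linarith only [hRR, h1]
  refine ⟨Iv, fun E j => by linarith only [hIvb', hIvb' E j], ?_⟩
  intro Ω Λ Ξ W _ p lam x T pos A B i₀ f 𝒲 E hleaf hTC hE hx hdet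
  have h2b : (0 : ℝ) < 2 ^ b := by positivity
  have h2L : (0 : ℝ) < 2 ^ L := by positivity
  -- positions
  set Y : Ξ → Fin n → ℝ := fun ξ i => (pos ξ (some i) : ℝ) / 2 ^ L with hY
  have hY0 : ∀ ξ i, 0 ≤ Y ξ i := fun ξ i => by simp only [hY]; positivity
  have hY1 : ∀ ω i, Y (x ω) i ≤ 1 := by
    intro ω i
    simp only [hY]
    rw [div_le_one h2L]
    have h1 := hleaf.pos_lt ω (some i)
    exact_mod_cast h1.le
  -- skew coordinates
  set sk : W → Fin n → ℝ := fun w j => ∑ i, Iv (E w) j i * Y (x (f i₀ w)) i with hsk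
  have hskb : ∀ w j, |sk w j| ≤ (R : ℝ) - 1 := by
    intro w j
    calc |sk w j| ≤ ∑ i, |Iv (E w) j i * Y (x (f i₀ w)) i| := abs_sum_le_sum_abs _ _
      _ ≤ ∑ i, |Iv (E w) j i| := by
          apply sum_le_sum
          intro i _
          rw [abs_mul, abs_of_nonneg (hY0 _ _)]
          exact mul_le_of_le_one_right (abs_nonneg _) (hY1 _ _)
      _ ≤ _ := hIvb' _ _
  have hlt : ∀ w j, ⌊(2 : ℝ) ^ b * (sk w j + R)⌋₊ < 2 * R * 2 ^ b := by
    intro w j
    rw [Nat.floor_lt (by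
      have h1 := abs_le.mp (hskb w j)
      have h3 : 0 ≤ sk w j + R := by linarith only [h1]
      positivity)]
    have h1 := abs_le.mp (hskb w j)
    push_cast
    have h4 : sk w j + R < 2 * R := by linarith only [h1]
    calc (2 : ℝ) ^ b * (sk w j + R) < 2 ^ b * (2 * R) := by
          exact mul_lt_mul_of_pos_left h4 h2b
      _ = _ := by ring
  set s : W → Fin n → Fin (2 * R * 2 ^ b) := fun w j => ⟨⌊(2 : ℝ) ^ b * (sk w j + R)⌋₊, hlt w j⟩
    with hs
  have hs1 : ∀ w j, ((s w j : ℕ) : ℝ) ≤ 2 ^ b * (sk w j + R) := by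
    intro w j
    simp only [hs]
    apply Nat.floor_le
    have h1 := abs_le.mp (hskb w j)
    have h3 : 0 ≤ sk w j + R := by linarith only [h1]
    positivity
  have hs2 : ∀ w j, (2 : ℝ) ^ b * (sk w j + R) < ((s w j : ℕ) : ℝ) + 1 := by
    intro w j
    simp only [hs]
    exact Nat.lt_floor_add_one _
  -- the frame
  set M : W → Fin n → Fin n → ℝ := fun w j i => (E w j i : ℝ) / 2 ^ b with hM
  have hVb : ∀ w j i, |B (lam (f j w)) (some i)| ≤ C₀ := fun w j i => hleaf.B_le _ _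
  have hMV : ∀ w j i, |M w j i - B (lam (f j w)) (some i)| ≤ 1 / 2 ^ b := by
    intro w j i
    simp only [hM]
    rw [hE w]
    exact FRA.fr_near b (fun j i => B (lam (f j w)) (some i)) j i
  have hb1 : (1 : ℝ) / 2 ^ b ≤ 1 := by
    rw [div_le_one h2b]
    exact one_le_pow₀ (by norm_num)
  have hMb : ∀ w j i, |M w j i| ≤ C₀ + 1 := by
    intro w j i
    have h1 := hMV w j i
    have h2 := hVb w j i
    have h3 : |M w j i| ≤ |M w j i - B (lam (f j w)) (some i)| + |B (lam (f j w)) (some i)| := by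
      calc |M w j i| = |(M w j i - B (lam (f j w)) (some i)) + B (lam (f j w)) (some i)| := by
            rw [sub_add_cancel]
        _ ≤ _ := abs_add_le _ _
    linarith only [hb1, h1, h2, h3]
  have hIvM : ∀ w ∈ 𝒲, (∀ j i, Iv (E w) j i = Iv₀ (E w) j i) := by
    intro w hw j i
    have h1 := (hIv₀ (fun j i => B (lam (f j w)) (some i)) (fun j i => hVb w j i)
      (hdet w hw)).1
    rw [← hE w] at h1
    simp only [hIvdef]
    rw [if_pos h1]
  have hinv : ∀ w ∈ 𝒲, ∀ i i', ∑ j, M w j i * Iv (E w) j i' = if i = i' then 1 else 0 := by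
    intro w hw i i'
    have h1 := (hIv₀ (fun j i => B (lam (f j w)) (some i)) (fun j i => hVb w j i)
      (hdet w hw)).2.2 i i'
    rw [← hE w] at h1
    rw [← h1]
    apply sum_congr rfl
    intro j _
    rw [hIvM w hw]
  have hYsk : ∀ w ∈ 𝒲, ∀ i, Y (x (f i₀ w)) i = ∑ j, M w j i * sk w j := by
    intro w hw i
    simp only [hsk]
    calc Y (x (f i₀ w)) i = ∑ i', (if i = i' then (1 : ℝ) else 0) * Y (x (f i₀ w)) i' := by
          simp
      _ = ∑ i', (∑ j, M w j i * Iv (E w) j i') * Y (x (f i₀ w)) i' := by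
          apply sum_congr rfl
          intro i' _
          rw [hinv w hw]
      _ = ∑ i', ∑ j, M w j i * (Iv (E w) j i' * Y (x (f i₀ w)) i') := by
          apply sum_congr rfl
          intro i' _
          rw [sum_mul]
          apply sum_congr rfl
          intro j _
          ring
      _ = ∑ j, ∑ i', M w j i * (Iv (E w) j i' * Y (x (f i₀ w)) i') := sum_comm
      _ = _ := by
          apply sum_congr rfl
          intro j _
          rw [mul_sum]
  have hM0 : ∀ w j, M w j i₀ = 1 := by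
    intro w j
    simp only [hM]
    rw [hE w]
    simp only [fr]
    rw [(hTC (f j w)).2.2, mul_one]
    have h1 : ((2 : ℝ) ^ b) = (((2 ^ b : ℕ) : ℤ) : ℝ) := by push_cast; rfl
    rw [h1, Int.floor_intCast]
    have h3 : (((2 ^ b : ℕ) : ℤ) : ℝ) ≠ 0 := by rw [← h1]; positivity
    exact div_self h3
  have hT : ∀ ω, (T (x ω) : ℝ) / 2 ^ L = Y (x ω) i₀ := by
    intro ω
    simp only [hY]
    rw [(hTC ω).1]
  have hTsk : ∀ w ∈ 𝒲, Y (x (f i₀ w)) i₀ = ∑ j, sk w j := by
    intro w hw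
    rw [hYsk w hw]
    apply sum_congr rfl
    intro j _
    rw [hM0, one_mul]
  have hbc : ∀ (ξ ξ' : Ξ) (i : Fin n) (c : ℝ), 2 ^ b * |Y ξ i - Y ξ' i| ≤ c →
      |(bc L b pos ξ i : ℝ) - (bc L b pos ξ' i : ℝ)| ≤ c + 1 := by
    intro ξ ξ' i c hc
    obtain ⟨h1, h2⟩ := bc_near hbL pos ξ i
    obtain ⟨h3, h4⟩ := bc_near hbL pos ξ' i
    have h5 : |(2 : ℝ) ^ b * Y ξ i - 2 ^ b * Y ξ' i| ≤ c := by
      rw [← mul_sub, abs_mul, abs_of_pos h2b]; exact hc
    rw [abs_le] at h5 ⊢
    simp only [hY] at h5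
    constructor <;> linarith [h5.1, h5.2]
  have hss : ∀ w w' j, s w j = s w' j → 2 ^ b * |sk w j - sk w' j| ≤ 1 := by
    intro w w' j h
    have h1 := hs1 w j
    have h2 := hs2 w j
    have h3 := hs1 w' j
    have h4 := hs2 w' j
    rw [h] at h1 h2
    have h5 : |(2 : ℝ) ^ b * (sk w j - sk w' j)| ≤ 1 := by
      rw [abs_le]
      constructor <;> nlinarith
    rw [abs_mul, abs_of_pos h2b] at h5
    exact h5
  refine ⟨s, ?_, ?_, ?_, ?_⟩
  · -- the position determines the base cell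
    intro w hw w' hw' hEE hsw i
    have h1 : 2 ^ b * |Y (x (f i₀ w)) i - Y (x (f i₀ w')) i| ≤ n * (C₀ + 1) := by
      rw [hYsk w hw, hYsk w' hw']
      have hMM : M w' = M w := by simp only [hM]; rw [hEE]
      rw [hMM, ← sum_sub_distrib]
      calc 2 ^ b * |∑ j, (M w j i * sk w j - M w j i * sk w' j)| ≤
            2 ^ b * ∑ j, |M w j i * sk w j - M w j i * sk w' j| :=
            mul_le_mul_of_nonneg_left (abs_sum_le_sum_abs _ _) h2b.le
        _ = ∑ j, |M w j i| * (2 ^ b * |sk w j - sk w' j|) := by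
            rw [mul_sum]
            apply sum_congr rfl
            intro j _
            rw [← mul_sub, abs_mul]
            ring
        _ ≤ ∑ _j : Fin n, (C₀ + 1) * 1 := by
            apply sum_le_sum
            intro j _
            exact mul_le_mul (hMb w j i) (hss w w' j (by rw [hsw])) (by positivity) (by linarith only [hC])
        _ = n * (C₀ + 1) := by rw [sum_const, card_univ, Fintype.card_fin, nsmul_eq_mul, mul_one]
    refine (hbc _ _ i _ h1).trans ?_
    nlinarith only [hC]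
  · -- the position is given by the base cell
    intro w hw ξ hξ j
    have h1 : |(2 : ℝ) ^ b * (∑ i, Iv (E w) j i * Y ξ i + R) - 2 ^ b * (sk w j + R)| ≤ R := by
      have h2 : (2 : ℝ) ^ b * (∑ i, Iv (E w) j i * Y ξ i + R) - 2 ^ b * (sk w j + R) =
          ∑ i, Iv (E w) j i * (2 ^ b * Y ξ i - 2 ^ b * Y (x (f i₀ w)) i) := by
        simp only [hsk]
        rw [← mul_sub]
        have h3 : ∑ i, Iv (E w) j i * Y ξ i + (R : ℝ) -
            (∑ i, Iv (E w) j i * Y (x (f i₀ w)) i + R) =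
            ∑ i, (Iv (E w) j i * Y ξ i - Iv (E w) j i * Y (x (f i₀ w)) i) := by
          rw [sum_sub_distrib]; ring
        rw [h3, mul_sum]
        apply sum_congr rfl
        intro i _
        ring
      rw [h2]
      calc |∑ i, Iv (E w) j i * (2 ^ b * Y ξ i - 2 ^ b * Y (x (f i₀ w)) i)| ≤
            ∑ i, |Iv (E w) j i * (2 ^ b * Y ξ i - 2 ^ b * Y (x (f i₀ w)) i)| :=
            abs_sum_le_sum_abs _ _
        _ ≤ ∑ i, |Iv (E w) j i| := by
            apply sum_le_sum
            intro i _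
            rw [abs_mul]
            apply mul_le_of_le_one_right (abs_nonneg _)
            obtain ⟨h4, h5⟩ := bc_near hbL pos ξ i
            obtain ⟨h6, h7⟩ := bc_near hbL pos (x (f i₀ w)) i
            rw [hξ] at h4 h5
            rw [abs_le]
            simp only [hY]
            constructor <;> linarith
        _ ≤ R := by linarith only [hIvb', hIvb' (E w) j]
    have h2 := hs1 w j
    have h3 := hs2 w j
    have h4 : |((s w j : ℕ) : ℝ) - 2 ^ b * (∑ i, Iv (E w) j i * Y ξ i + R)| ≤ R + 1 := by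
      rw [abs_le] at h1 ⊢
      constructor <;> linarith [h1.1, h1.2]
    refine h4.trans ?_
    have h7 : (2 : ℝ) * R ≤ ((2 * n * (C₀ + 1) + 8 * C₀ + 8) + 2 + n) * R := by
      refine mul_le_mul_of_nonneg_right ?_ (by linarith only [hRn0])
      nlinarith only [hC]
    linarith only [hRn0, h7]
  · -- the time
    intro w hw
    rw [hT, hTsk w hw]
    have h1 : (2 : ℝ) ^ b * ∑ j, sk w j - (∑ j, ((s w j : ℕ) : ℝ) - n * R * 2 ^ b) =
        ∑ j, (2 ^ b * (sk w j + R) - ((s w j : ℕ) : ℝ)) := by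
      rw [sum_sub_distrib]
      have h2 : ∑ j, (2 : ℝ) ^ b * (sk w j + R) = 2 ^ b * ∑ j, sk w j + n * R * 2 ^ b := by
        simp only [mul_add]
        rw [sum_add_distrib, ← mul_sum, sum_const, card_univ, Fintype.card_fin, nsmul_eq_mul]
        ring
      rw [h2]
      ring
    rw [h1]
    calc |∑ j, ((2 : ℝ) ^ b * (sk w j + R) - ((s w j : ℕ) : ℝ))| ≤
          ∑ j, |(2 : ℝ) ^ b * (sk w j + R) - ((s w j : ℕ) : ℝ)| := abs_sum_le_sum_abs _ _
      _ ≤ ∑ _j : Fin n, (1 : ℝ) := by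
          apply sum_le_sum
          intro j _
          have h2 := hs1 w j
          have h3 := hs2 w j
          rw [abs_le]
          constructor <;> linarith
      _ = n := by rw [sum_const, card_univ, Fintype.card_fin, nsmul_eq_mul, mul_one]
      _ ≤ _ := by nlinarith only [hC]
  · -- the lines of the grid
    intro j w hw w' hw' hEE hsw ω ω' hω hω' hTT i
    -- the point on the line
    have hline : ∀ v ∈ 𝒲, ∀ o, lam o = lam (f j v) →
        |Y (x o) i - (Y (x (f i₀ v)) i + (Y (x o) i₀ - Y (x (f i₀ v)) i₀) * M v j i)| ≤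
          (2 * C₀ + 1) * (1 / 2 ^ b) := by
      intro v hv o ho
      have h1 := hleaf.near o (some i)
      have h2 := hleaf.near (f j v) (some i)
      rw [ho] at h1
      have hxv := hx v hv j
      rw [hxv] at h2
      have h1' : |Y (x o) i - (A (lam (f j v)) (some i) +
          Y (x o) i₀ * B (lam (f j v)) (some i))| ≤ C₀ / 2 ^ L := by
        rw [← hT o]
        have := h1
        push_cast at this
        exact this
      have h2' : |Y (x (f i₀ v)) i - (A (lam (f j v)) (some i) +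
          Y (x (f i₀ v)) i₀ * B (lam (f j v)) (some i))| ≤ C₀ / 2 ^ L := by
        rw [← hT (f i₀ v)]
        have := h2
        push_cast at this
        exact this
      have h3 := hMV v j i
      have h4 : |Y (x o) i₀ - Y (x (f i₀ v)) i₀| ≤ 1 := by
        rw [abs_le]
        constructor <;> linarith only [hY0, hY1, hY0 (x o) i₀, hY1 o i₀, hY0 (x (f i₀ v)) i₀, hY1 (f i₀ v) i₀]
      have h5 : C₀ / 2 ^ L ≤ C₀ * (1 / 2 ^ b) := by
        rw [mul_one_div]
        apply div_le_div_of_nonneg_left (by linarith only [hC]) h2b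
        exact pow_le_pow_right₀ (by norm_num) hbL
      have h6 : |(Y (x o) i₀ - Y (x (f i₀ v)) i₀) *
          (M v j i - B (lam (f j v)) (some i))| ≤ 1 / 2 ^ b := by
        rw [abs_mul]
        calc |Y (x o) i₀ - Y (x (f i₀ v)) i₀| * |M v j i - B (lam (f j v)) (some i)| ≤
              1 * (1 / 2 ^ b) := mul_le_mul h4 h3 (abs_nonneg _) (by norm_num)
          _ = _ := one_mul _
      have h7 : Y (x o) i - (Y (x (f i₀ v)) i + (Y (x o) i₀ - Y (x (f i₀ v)) i₀) * M v j i) =
          (Y (x o) i - (A (lam (f j v)) (some i) + Y (x o) i₀ * B (lam (f j v)) (some i))) -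
          (Y (x (f i₀ v)) i - (A (lam (f j v)) (some i) +
            Y (x (f i₀ v)) i₀ * B (lam (f j v)) (some i))) -
          (Y (x o) i₀ - Y (x (f i₀ v)) i₀) * (M v j i - B (lam (f j v)) (some i)) := by ring
      rw [h7, abs_le]
      rw [abs_le] at h1' h2' h6
      constructor <;> linarith only [h1', h2', h5, h6, h1'.1, h1'.2, h2'.1, h2'.2, h6.1, h6.2]
    have ha := hline w hw ω hω
    have hb' := hline w' hw' ω' hω'
    have hMM : M w' = M w := by simp only [hM]; rw [hEE]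
    rw [hMM] at hb'
    -- the times
    have ht : |Y (x ω) i₀ - Y (x ω') i₀| ≤ 1 / 2 ^ b := by
      obtain ⟨h4, h5⟩ := bc_near hbL pos (x ω) i₀
      obtain ⟨h6, h7⟩ := bc_near hbL pos (x ω') i₀
      have h8 : bc L b pos (x ω) i₀ = bc L b pos (x ω') i₀ := by
        have h9 : ∀ o, bc L b pos (x o) i₀ = T (x o) / 2 ^ (L - b) := by
          intro o
          change pos (x o) (some i₀) / 2 ^ (L - b) = _
          rw [(hTC o).1]
        rw [h9, h9, hTT]
      rw [h8] at h4 h5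
      have h10 : |(2 : ℝ) ^ b * (Y (x ω) i₀ - Y (x ω') i₀)| ≤ 1 := by
        rw [abs_le]
        simp only [hY]
        constructor <;> linarith
      rw [abs_mul, abs_of_pos h2b] at h10
      rw [le_div_iff₀ h2b, mul_comm]
      exact h10
    -- the base points
    have hbase : |(Y (x (f i₀ w)) i - Y (x (f i₀ w')) i) -
        (Y (x (f i₀ w)) i₀ - Y (x (f i₀ w')) i₀) * M w j i| ≤
        (n * (2 * (C₀ + 1))) * (1 / 2 ^ b) := by
      rw [hTsk w hw, hTsk w' hw', hYsk w hw, hYsk w' hw', hMM]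
      have h1 : (∑ k, M w k i * sk w k - ∑ k, M w k i * sk w' k) -
          (∑ k, sk w k - ∑ k, sk w' k) * M w j i =
          ∑ k, (sk w k - sk w' k) * (M w k i - M w j i) := by
        rw [← sum_sub_distrib, ← sum_sub_distrib, sum_mul, ← sum_sub_distrib]
        apply sum_congr rfl
        intro k _
        ring
      rw [h1]
      calc |∑ k, (sk w k - sk w' k) * (M w k i - M w j i)| ≤
            ∑ k, |(sk w k - sk w' k) * (M w k i - M w j i)| := abs_sum_le_sum_abs _ _
        _ ≤ ∑ _k : Fin n, (1 / 2 ^ b) * (2 * (C₀ + 1)) := by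
            apply sum_le_sum
            intro k _
            by_cases hk : k = j
            · rw [hk, sub_self, mul_zero, abs_zero]
              positivity
            · rw [abs_mul]
              apply mul_le_mul _ _ (abs_nonneg _) (by positivity)
              · have h2 := hss w w' k (hsw k hk)
                rw [le_div_iff₀ h2b, mul_comm]
                exact h2
              · have h3 := hMb w k i
                have h4 := hMb w j i
                calc |M w k i - M w j i| ≤ |M w k i| + |M w j i| := abs_sub _ _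
                  _ ≤ _ := by linarith only [h3, h4]
        _ = _ := by
            rw [sum_const, card_univ, Fintype.card_fin, nsmul_eq_mul]
            ring
    have hfin : |Y (x ω) i - Y (x ω') i| ≤
        (2 * (2 * C₀ + 1) + n * (2 * (C₀ + 1)) + (C₀ + 1)) * (1 / 2 ^ b) := by
      have h8 : |(Y (x ω) i₀ - Y (x ω') i₀) * M w j i| ≤ (1 / 2 ^ b) * (C₀ + 1) := by
        rw [abs_mul]
        exact mul_le_mul ht (hMb w j i) (abs_nonneg _) (by positivity)
      have h7 : Y (x ω) i - Y (x ω') i =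
          (Y (x ω) i - (Y (x (f i₀ w)) i + (Y (x ω) i₀ - Y (x (f i₀ w)) i₀) * M w j i)) -
          (Y (x ω') i - (Y (x (f i₀ w')) i + (Y (x ω') i₀ - Y (x (f i₀ w')) i₀) * M w j i)) +
          ((Y (x (f i₀ w)) i - Y (x (f i₀ w')) i) -
            (Y (x (f i₀ w)) i₀ - Y (x (f i₀ w')) i₀) * M w j i) +
          (Y (x ω) i₀ - Y (x ω') i₀) * M w j i := by ring
      rw [h7, abs_le]
      rw [abs_le] at ha hb' hbase h8
      constructor <;> nlinarith only [ha, hb', hbase, h8, ha.1, ha.2, hb'.1, hb'.2, hbase.1, hbase.2, h8.1, h8.2]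
    have hfin2 : 2 ^ b * |Y (x ω) i - Y (x ω') i| ≤
        2 * (2 * C₀ + 1) + n * (2 * (C₀ + 1)) + (C₀ + 1) := by
      calc 2 ^ b * |Y (x ω) i - Y (x ω') i| ≤ 2 ^ b *
            ((2 * (2 * C₀ + 1) + n * (2 * (C₀ + 1)) + (C₀ + 1)) * (1 / 2 ^ b)) :=
            mul_le_mul_of_nonneg_left hfin h2b.le
        _ = _ := by field_simp
    refine (hbc _ _ i _ hfin2).trans ?_
    nlinarith only [hC]

end Pool.KBX.FRU
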