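import Pool.Agent.H37.S3.FIN
import Pool.Agent.H84.KBOX.Stmts

/-!
# From regularity to the degree drop: statements

Rows SLP and JUN of the board kbx. `REG` gives on a point event polynomials `G` on the cells of
side `2 ^ (-u)` with `|N - G (Y)| ≤ C₀ / 2 ^ L'` and second derivatives at most `2 ^ s`. Row SLP:
the slopes are at most `C₁` after removing a few points. Row JUN: the degree drop `fin_thm` for the
leaf coarsened to `L'` digits.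
-/

set_option autoImplicit false

namespace Pool.KBX

open Finset Real MeasureTheory
open Pool.Agent.H49.Ent Pool.Agent.H32.Dense Pool.STK Pool.KAF Pool.KAL Pool.KS3

/-- The second derivatives of `G` are at most `S` on twice the cube. -/
def D2 {n : ℕ} (G : MvPolynomial (Fin n) ℝ) (a : Fin n → ℝ) (r S : ℝ) : Prop :=
  ∀ y : Fin n → ℝ, (∀ i, |y i - a i| ≤ 2 * r) → ∀ i j,
    |MvPolynomial.eval y (MvPolynomial.pderiv i (MvPolynomial.pderiv j G))| ≤ S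

/-- The polynomial of the cell of a point and the corner of this cell. -/
def Gc {n : ℕ} {Ξ : Type} (L u : ℕ) (pos : Ξ → Option (Fin n) → ℕ)
    (G : (Option (Fin n) → ℕ) → MvPolynomial (Fin n) ℝ) (ξ : Ξ) : MvPolynomial (Fin n) ℝ :=
  G (cel (2 ^ (L - u)) pos ξ)

/-- The corner of the cell of a point. -/
noncomputable def cc {n : ℕ} {Ξ : Type} (L u : ℕ) (pos : Ξ → Option (Fin n) → ℕ) (ξ : Ξ) :
    Fin n → ℝ := crn (2 ^ L) (2 ^ (L - u)) (cel (2 ^ (L - u)) pos ξ)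

/-- The leaf is near the graphs of the polynomials `G` of the cells of side `2 ^ (-u)`, up to
`C₀ / 2 ^ L'`. -/
structure GG {n : ℕ} {Ω Ξ : Type} (L L' u d : ℕ) (C₀ S : ℝ) (p : Ω → ℝ) (x : Ω → Ξ)
    (pos : Ξ → Option (Fin n) → ℕ) (G : (Option (Fin n) → ℕ) → MvPolynomial (Fin n) ℝ) :
    Prop where
  deg : ∀ c, (G c).totalDegree ≤ d
  near : ∀ ω, 0 < p ω → |rp (2 ^ L) pos (x ω) none -
    MvPolynomial.eval (fun i => rp (2 ^ L) pos (x ω) (some i)) (Gc L u pos G (x ω))| ≤ C₀ / 2 ^ L'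
  d2 : ∀ ω, 0 < p ω → D2 (Gc L u pos G (x ω)) (cc L u pos (x ω)) (1 / 2 ^ u) S

/-- Row SLP: slopes. Lines with a small deficit in the window and in the cell: Remez gives
`|N - G (Y)| ≤ exp (C (e₁ + 1)) / 2 ^ L'` on the window, so `|B_N - ∇G · B_Y| ≤ 1`; `n` such lines
in the fan of the point with determinant at least `δ ^ n`. -/
def SLPStmt : Prop :=
  ∀ (n d : ℕ) (C₀ δ : ℝ), 1 ≤ C₀ → 0 < δ → ∃ C₁ : ℝ, 1 ≤ C₁ ∧
    ∀ (Ω Λ Ξ : Type) [Fintype Ω] (p : Ω → ℝ) (lam : Ω → Λ) (x : Ω → Ξ) (T : Ξ → ℕ)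
      (pos : Ξ → Option (Fin n) → ℕ) (A B : Λ → Option (Fin n) → ℝ) (μ : Λ → ℝ) (i₀ : Fin n)
      (G : (Option (Fin n) → ℕ) → MvPolynomial (Fin n) ℝ) (L L' u s : ℕ) (ε e₁ e₃ : ℝ),
      SL L C₀ δ ε e₁ e₃ p lam x T pos A B μ → TC i₀ lam x T pos A B → L' ≤ L → u ≤ L' →
      GG L L' u d C₀ (2 ^ s) p x pos G → C₁ * 2 ^ s ≤ 2 ^ u → ε ≤ 1 / 8 →
      C₁ * (e₁ + 1) + u * Real.log 2 ≤ L' * Real.log 2 →
      ∃ S : Set Ξ, 1 / 2 ≤ Pr p {ω | x ω ∈ S} ∧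
        ∀ ω, 0 < p ω → x ω ∈ S →
          RegG (Gc L u pos G (x ω)) (cc L u pos (x ω)) (1 / 2 ^ u) d C₁

/-- Row JUN: the degree drop for the leaf coarsened to `L'` digits. The thickness of the coarse
leaf is bounded with row CON. -/
def JUNStmt : Prop :=
  ∀ (n D j k₀ : ℕ) (C₀ C₁ : ℝ), (j + n).choose n < (D + n + 1).choose (n + 1) →
    6 * n * D ≤ j → 1 ≤ C₀ → 1 ≤ C₁ → ∃ C : ℝ, 0 ≤ C ∧
    ∀ (Ω Λ Ξ : Type) [Fintype Ω] (p : Ω → ℝ) (lam : Ω → Λ) (x : Ω → Ξ)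
      (T : Ξ → ℕ) (pos : Ξ → Option (Fin n) → ℕ) (A B : Λ → Option (Fin n) → ℝ) (i₀ : Fin n)
      (G : (Option (Fin n) → ℕ) → MvPolynomial (Fin n) ℝ) (L L' u κ γ N : ℕ)
      (δ ε e₁ e₃ : ℝ),
      LF L κ γ C₀ δ ε e₁ e₃ p lam x T pos A B → TC i₀ lam x T pos A B → L' ≤ L →
      (j + 2) * u ≤ L' →
      (∀ ω, 0 < p ω → RegG (Gc L u pos G (x ω)) (cc L u pos (x ω)) (1 / 2 ^ u) k₀ C₁) →
      (∀ ω, 0 < p ω → |rp (2 ^ L) pos (x ω) none -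
        MvPolynomial.eval (fun i => rp (2 ^ L) pos (x ω) (some i)) (Gc L u pos G (x ω))| ≤
          C₀ / 2 ^ L') →
      n.factorial * (3 * C₀ + (n + 1) * C₁) ^ n ≤ δ ^ n * 2 ^ γ →
      Pr p {ω | Bad (Gc L u pos G (x ω)) (cc L u pos (x ω)) (1 / 2 ^ u) D
        (2 ^ (u * (j + 1)) / 2 ^ L')} * (u * Real.log 2) ≤
        C * ((N + 1) * (e₁ + 1) + e₃ + (1 - 1 / n) ^ N * L + W0 L κ γ ε)

end Pool.KBX
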